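import Mathlib

/-!
# Profinite coarse structures on the integers are never coarsely isomorphic to word metrics

A coarse structure on `ℤ` is given by its uniformly bounded families of subsets, i.e. by a
predicate on `Set (Set ℤ)`.  We define the profinite coarse structure `profinite Q`, the
word-metric coarse structure `cayley S`, coarse isomorphisms of coarse groups, and prove that
`profinite Q` and `cayley S` are never coarsely isomorphic when `Q` is a non-empty set of primes.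

The point: the bounded sets of `cayley S` containing a given point have a countable cofinal
family, whereas the compact subsets of `(ℤ, τ_Q)` do not.
-/

open Set Filter Topology Pointwise

namespace Pool.Agent.Results.MP_59b615_al.NotWordMetric

/-- A coarse structure on `ℤ`, specified by its uniformly bounded families of subsets. -/
abbrev Coarse := Set (Set ℤ) → Prop

/-- The positive integers all of whose prime factors lie in `Q`. -/
def star (Q : Set ℕ) : Set ℕ := {m | 0 < m ∧ ∀ p : ℕ, p.Prime → p ∣ m → p ∈ Q}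

/-- The topology `τ_Q` on `ℤ`: generated by the cosets `a + mℤ`, `a ∈ ℤ`, `m ∈ star Q`. -/
@[reducible] def tau (Q : Set ℕ) : TopologicalSpace ℤ :=
  TopologicalSpace.generateFrom {U | ∃ a : ℤ, ∃ m ∈ star Q, U = {x : ℤ | (m : ℤ) ∣ x - a}}

/-- The profinite coarse structure: a family is uniformly bounded iff its members are contained
in translates of one `τ_Q`-compact set. -/
def profinite (Q : Set ℕ) : Coarse := fun F =>
  ∃ K : Set ℤ, @IsCompact ℤ (tau Q) K ∧ ∀ A ∈ F, ∃ k : ℤ, A ⊆ {x | ∃ y ∈ K, x = k + y}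

/-- The word distance `d_S(a, b)`: the least number of elements of `S ∪ (-S)`
(with repetition) summing to `a - b`, and `∞` if there is none. -/
noncomputable def wordDist (S : Set ℤ) (a b : ℤ) : ℕ∞ :=
  ⨅ l : {l : List ℤ // (∀ s ∈ l, s ∈ S ∨ -s ∈ S) ∧ l.sum = a - b}, (l.1.length : ℕ∞)

/-- The word-metric coarse structure: a family is uniformly bounded iff its members have
uniformly bounded `d_S`-diameter. -/
def cayley (S : Set ℤ) : Coarse := fun F =>
  ∃ n : ℕ, ∀ A ∈ F, ∀ x ∈ A, ∀ y ∈ A, wordDist S x y ≤ n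

/-- `f` is controlled: it sends uniformly bounded families to uniformly bounded families. -/
def Controlled (E E' : Coarse) (f : ℤ → ℤ) : Prop :=
  ∀ F : Set (Set ℤ), E F → E' {B | ∃ A ∈ F, B = f '' A}

/-- `f` and `g` are close: the family of all pairs `{f x, g x}` is uniformly bounded. -/
def Close (E : Coarse) (f g : ℤ → ℤ) : Prop :=
  E {B | ∃ x : ℤ, B = {f x, g x}}

/-- `f` is a coarse isomorphism of coarse groups `(ℤ, E) → (ℤ, E')`: it is controlled,
`f (a + b)` is uniformly close to `f a + f b`, and it has a controlled coarse inverse. -/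
def IsCoarseIso (E E' : Coarse) (f : ℤ → ℤ) : Prop :=
  Controlled E E' f ∧
  E' {B | ∃ a b : ℤ, B = {f (a + b), f a + f b}} ∧
  ∃ g : ℤ → ℤ, Controlled E' E g ∧ Close E (g ∘ f) id ∧ Close E' (f ∘ g) id

/-! ### The topology -/

section topology

variable (Q : Set ℕ)

theorem isOpen_coset {m : ℕ} (hm : m ∈ star Q) (a : ℤ) :
    @IsOpen ℤ (tau Q) {x : ℤ | (m : ℤ) ∣ x - a} :=
  TopologicalSpace.isOpen_generateFrom_of_mem ⟨a, m, hm, rfl⟩

theorem topGroup : @IsTopologicalAddGroup ℤ (tau Q) _ := by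
  let _ := tau Q
  have hadd : Continuous (fun p : ℤ × ℤ => p.1 + p.2) := by
    refine continuous_generateFrom_iff.2 ?_
    rintro U ⟨a, m, hm, rfl⟩
    rw [isOpen_prod_iff]
    intro x y hxy
    refine ⟨_, _, isOpen_coset Q hm x, isOpen_coset Q hm y, by simp, by simp, ?_⟩
    rintro ⟨u, v⟩ ⟨hu, hv⟩
    simp only [mem_ofPred_eq, mem_preimage] at hu hv hxy ⊢
    have : u + v - a = (u - x) + (v - y) + (x + y - a) := by ring
    rw [this]
    exact dvd_add (dvd_add hu hv) hxy
  have hneg : Continuous (fun p : ℤ => -p) := by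
    refine continuous_generateFrom_iff.2 ?_
    rintro U ⟨a, m, hm, rfl⟩
    have : (fun p : ℤ => -p) ⁻¹' {x : ℤ | (m : ℤ) ∣ x - a} = {x : ℤ | (m : ℤ) ∣ x - (-a)} := by
      ext x
      simp only [mem_preimage, mem_ofPred_eq]
      have : -x - a = -(x - -a) := by ring
      rw [this, dvd_neg]
    rw [this]
    exact isOpen_coset Q hm (-a)
  exact { continuous_add := hadd, continuous_neg := hneg }

/-- Neighbourhoods of a point contain a coset. -/
theorem mem_nhds_coset {x : ℤ} {U : Set ℤ} (hU : U ∈ @nhds ℤ (tau Q) x) :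
    ∃ m ∈ star Q, {y : ℤ | (m : ℤ) ∣ y - x} ⊆ U := by
  let _ := tau Q
  rw [mem_nhds_iff] at hU
  obtain ⟨V, hVU, hV, hxV⟩ := hU
  have key : ∀ V : Set ℤ, IsOpen V → ∀ x ∈ V, ∃ m ∈ star Q, {y : ℤ | (m : ℤ) ∣ y - x} ⊆ V := by
    intro V hV
    induction hV with
    | basic s hs =>
      obtain ⟨a, m, hm, rfl⟩ := hs
      intro x hx
      refine ⟨m, hm, fun y hy => ?_⟩
      simp only [mem_ofPred_eq] at hx hy ⊢
      have : y - a = (y - x) + (x - a) := by ring
      rw [this]
      exact dvd_add hy hx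
    | univ =>
      intro x _
      exact ⟨1, ⟨one_pos, fun p hp h => absurd (Nat.dvd_one.1 h) hp.one_lt.ne'⟩,
        subset_univ _⟩
    | inter s t _ _ hs ht =>
      intro x hx
      obtain ⟨m, hm, hms⟩ := hs x hx.1
      obtain ⟨n, hn, hnt⟩ := ht x hx.2
      refine ⟨m * n, ⟨Nat.mul_pos hm.1 hn.1, fun p hp h => ?_⟩, fun y hy => ⟨hms ?_, hnt ?_⟩⟩
      · rcases (Nat.Prime.dvd_mul hp).1 h with h | h
        · exact hm.2 p hp h
        · exact hn.2 p hp h
      · simp only [mem_ofPred_eq] at hy ⊢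
        refine dvd_trans ?_ hy
        push_cast
        exact dvd_mul_right _ _
      · simp only [mem_ofPred_eq] at hy ⊢
        refine dvd_trans ?_ hy
        push_cast
        exact dvd_mul_left _ _
    | sUnion S _ hS =>
      rintro x ⟨s, hs, hx⟩
      obtain ⟨m, hm, hms⟩ := hS s hs x hx
      exact ⟨m, hm, hms.trans (subset_sUnion_of_mem hs)⟩
  obtain ⟨m, hm, h⟩ := key V hV x hxV
  exact ⟨m, hm, h.trans hVU⟩

theorem mul_mem_star {m n : ℕ} (hm : m ∈ star Q) (hn : n ∈ star Q) : m * n ∈ star Q := by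
  refine ⟨Nat.mul_pos hm.1 hn.1, fun p hp h => ?_⟩
  rcases (Nat.Prime.dvd_mul hp).1 h with h | h
  · exact hm.2 p hp h
  · exact hn.2 p hp h

theorem pow_mem_star {p : ℕ} (hp : p.Prime) (hpQ : p ∈ Q) (k : ℕ) : p ^ k ∈ star Q := by
  refine ⟨pow_pos hp.pos k, fun q hq h => ?_⟩
  have : q = p := (Nat.prime_dvd_prime_iff_eq hq hp).1 (hq.dvd_of_dvd_pow h)
  rwa [this]

theorem one_mem_star : 1 ∈ star Q :=
  ⟨one_pos, fun p hp h => absurd (Nat.dvd_one.1 h) hp.one_lt.ne'⟩

/-- No subgroup `mℤ`, `m ∈ star Q`, is contained in a `τ_Q`-compact set. -/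
theorem not_compact {p : ℕ} (hp : p.Prime) (hpQ : p ∈ Q) {m : ℕ} (hm : m ∈ star Q)
    {K : Set ℤ} (hK : @IsCompact ℤ (tau Q) K) (hmK : {x : ℤ | (m : ℤ) ∣ x} ⊆ K) : False := by
  let _ := tau Q
  -- choose `N = p ^ k` with `N > m + 1`
  obtain ⟨k, hk⟩ : ∃ k : ℕ, m + 1 < p ^ k := by
    obtain ⟨k, hk⟩ := pow_unbounded_of_one_lt (m + 1) hp.one_lt
    exact ⟨k, by exact_mod_cast hk⟩
  set N : ℤ := (p : ℤ) ^ k with hN
  have hNm : (m : ℤ) + 1 < N := by rw [hN]; exact_mod_cast hk
  have hm0 : (0 : ℤ) < m := by exact_mod_cast hm.1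
  -- the sequence
  let s : ℕ → ℤ := fun j => m * ∑ i ∈ Finset.range j, N ^ i
  have hs_mem : ∀ j, s j ∈ K := fun j => hmK (dvd_mul_right _ _)
  have hs_mul : ∀ j, (N - 1) * s j = m * (N ^ j - 1) := by
    intro j
    have := mul_geom_sum N j
    calc (N - 1) * s j = m * ((N - 1) * ∑ i ∈ Finset.range j, N ^ i) := by simp only [s]; ring
      _ = m * (N ^ j - 1) := by rw [this]
  -- a cluster point
  obtain ⟨x, -, hx⟩ := @hK (map s atTop) _ (by
    rw [le_principal_iff, mem_map]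
    exact Filter.univ_mem' hs_mem)
  have hx' : MapClusterPt x atTop s := hx
  rw [mapClusterPt_iff_frequently] at hx'
  have hdiv : ∀ j : ℕ, N ^ j ∣ (N - 1) * x + m := by
    intro j
    have hmem : (p ^ k) ^ j ∈ star Q := by
      rw [← pow_mul]; exact pow_mem_star Q hp hpQ _
    have hU := (isOpen_coset Q hmem x).mem_nhds (show x ∈ {y : ℤ | (((p ^ k) ^ j : ℕ) : ℤ) ∣ y - x} by simp)
    obtain ⟨i, hi, hij⟩ := ((hx' _ hU).and_eventually (eventually_ge_atTop j)).exists
    simp only [mem_ofPred_eq] at hi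
    have hi' : N ^ j ∣ s i - x := by
      have : ((((p ^ k) ^ j : ℕ) : ℤ)) = N ^ j := by rw [hN]; push_cast; ring
      rwa [this] at hi
    have h1 : (N - 1) * x + m = m * N ^ i - (N - 1) * (s i - x) := by
      have := hs_mul i
      linear_combination this
    rw [h1]
    exact dvd_sub (Dvd.dvd.mul_left (pow_dvd_pow N hij) _) (Dvd.dvd.mul_left hi' _)
  have hzero : (N - 1) * x + m = 0 := by
    by_contra hne
    have hN1 : 1 < N := by linarith
    obtain ⟨j, hj⟩ := pow_unbounded_of_one_lt |(N - 1) * x + m| hN1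
    have := Int.le_of_dvd (abs_pos.2 hne) ((dvd_abs _ _).2 (hdiv j))
    linarith
  have hdvd : (N - 1) ∣ (m : ℤ) := ⟨-x, by linear_combination hzero⟩
  have := Int.le_of_dvd hm0 hdvd
  linarith

/-- There is no countable cofinal family of compact sets. -/
theorem not_hemicompact (hQ : Q.Nonempty) (hQp : ∀ p ∈ Q, p.Prime) (K : ℕ → Set ℤ)
    (hK : ∀ n, @IsCompact ℤ (tau Q) (K n)) :
    ∃ L : Set ℤ, @IsCompact ℤ (tau Q) L ∧ ∀ n, ¬ L ⊆ K n := by
  let _ := tau Q
  obtain ⟨p, hpQ⟩ := hQ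
  have hp := hQp p hpQ
  -- a cofinal sequence in `star Q`
  obtain ⟨q, hq⟩ : ∃ q : ℕ → ℕ, range q = star Q :=
    (Set.to_countable (star Q)).exists_eq_range ⟨1, one_mem_star Q⟩ |>.imp fun _ h => h.symm
  have hqmem : ∀ n, q n ∈ star Q := fun n => hq ▸ mem_range_self n
  let M : ℕ → ℕ := fun n => ∏ i ∈ Finset.range (n + 1), q i
  have hM : ∀ n, M n ∈ star Q := by
    intro n
    simp only [M]
    induction n with
    | zero => simpa using hqmem 0
    | succ n ih =>
      rw [Finset.prod_range_succ]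
      exact mul_mem_star Q ih (hqmem _)
  -- points outside
  have hx : ∀ n, ∃ x : ℤ, (M n : ℤ) ∣ x ∧ x ∉ K n := by
    intro n
    by_contra hcon
    push Not at hcon
    exact not_compact Q hp hpQ (hM n) (hK n) (fun x hx => hcon x hx)
  choose x hxM hxK using hx
  have hlim : Tendsto x atTop (𝓝 0) := by
    intro U hU
    obtain ⟨m, hm, hmU⟩ := mem_nhds_coset Q hU
    rw [← hq] at hm
    obtain ⟨j, rfl⟩ := hm
    rw [mem_map]
    filter_upwards [eventually_ge_atTop j] with n hn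
    apply hmU
    simp only [mem_ofPred_eq, sub_zero]
    refine dvd_trans ?_ (hxM n)
    have : q j ∣ M n := Finset.dvd_prod_of_mem q (Finset.mem_range.2 (by omega))
    exact_mod_cast this
  refine ⟨insert 0 (range x), hlim.isCompact_insert_range, fun n hn => hxK n (hn ?_)⟩
  exact mem_insert_of_mem _ (mem_range_self n)

end topology

/-! ### The word metric -/

theorem wordDist_le_iff (S : Set ℤ) (a b : ℤ) (n : ℕ) :
    wordDist S a b ≤ n ↔
      ∃ l : List ℤ, (∀ s ∈ l, s ∈ S ∨ -s ∈ S) ∧ l.sum = a - b ∧ l.length ≤ n := by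
  have h1 : wordDist S a b ≤ n ↔ wordDist S a b < ((n + 1 : ℕ) : ℕ∞) := by
    rw [Nat.cast_succ]
    exact (ENat.lt_add_one_iff (ENat.natCast_ne_top n)).symm
  rw [h1, wordDist, iInf_lt_iff]
  constructor
  · rintro ⟨⟨l, hl, hs⟩, h⟩
    exact ⟨l, hl, hs, Nat.lt_succ_iff.1 (by exact_mod_cast h)⟩
  · rintro ⟨l, hl, hs, h⟩
    exact ⟨⟨l, hl, hs⟩, by exact_mod_cast Nat.lt_succ_iff.2 h⟩

theorem wordDist_symm (S : Set ℤ) {a b : ℤ} {n : ℕ} (h : wordDist S a b ≤ n) :
    wordDist S b a ≤ n := by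
  rw [wordDist_le_iff] at h ⊢
  obtain ⟨l, hl, hs, hn⟩ := h
  refine ⟨l.map (fun s => -s), ?_, ?_, by simpa using hn⟩
  · intro s hs
    rw [List.mem_map] at hs
    obtain ⟨t, ht, rfl⟩ := hs
    rcases hl t ht with h | h
    · right; simpa using h
    · left; exact h
  · have : ∀ l : List ℤ, (l.map (fun s => -s)).sum = - l.sum := by
      intro l
      induction l with
      | nil => simp
      | cons a l ih => simp only [List.map_cons, List.sum_cons, ih]; ring
    rw [this, hs]; ring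

theorem wordDist_trans (S : Set ℤ) {a b c : ℤ} {m n : ℕ} (h : wordDist S a b ≤ m)
    (h' : wordDist S b c ≤ n) : wordDist S a c ≤ (m + n : ℕ) := by
  rw [wordDist_le_iff] at h h' ⊢
  obtain ⟨l, hl, hs, hn⟩ := h
  obtain ⟨l', hl', hs', hn'⟩ := h'
  refine ⟨l ++ l', ?_, ?_, ?_⟩
  · intro s hs
    rcases List.mem_append.1 hs with h | h
    · exact hl s h
    · exact hl' s h
  · rw [List.sum_append, hs, hs']; ring
  · rw [List.length_append]; omega

/-! ### The main theorem -/

/-- For every non-empty set of primes `Q` and every `S ⊆ ℤ`, the coarse groups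
`(ℤ, profinite Q)` and `(ℤ, cayley S)` are not coarsely isomorphic. -/
theorem result (Q : Set ℕ) (hQ : Q.Nonempty) (hQp : ∀ p ∈ Q, p.Prime) (S : Set ℤ) :
    ¬ ∃ f : ℤ → ℤ, IsCoarseIso (profinite Q) (cayley S) f := by
  let _ := tau Q
  have _ := topGroup Q
  rintro ⟨f, hf, -, g, hg, hgf, -⟩
  -- the sets `C n`
  let C : ℕ → Set ℤ := fun n => {x | wordDist S (f x) (f 0) ≤ n}
  -- each `C n` lies in a compact set
  have hC : ∀ n, ∃ K : Set ℤ, IsCompact K ∧ C n ⊆ K := by
    intro n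
    have h1 : cayley S {f '' C n} := by
      refine ⟨n + n, ?_⟩
      rintro A rfl x ⟨x', hx', rfl⟩ y ⟨y', hy', rfl⟩
      exact wordDist_trans S hx' (wordDist_symm S hy')
    obtain ⟨K, hK, hKsub⟩ := hg _ h1
    obtain ⟨k, hk⟩ := hKsub (g '' (f '' C n)) ⟨f '' C n, rfl, rfl⟩
    obtain ⟨K', hK', hKsub'⟩ := hgf
    refine ⟨{k} + K + K' + (-K'), ((isCompact_singleton.add hK).add hK').add hK'.neg, ?_⟩
    intro x hx
    obtain ⟨y, hy, hxy⟩ := hk ⟨f x, ⟨x, hx, rfl⟩, rfl⟩
    obtain ⟨c, hc⟩ := hKsub' {g (f x), x} ⟨x, rfl⟩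
    obtain ⟨u, hu, hxu⟩ := hc (show x ∈ ({g (f x), x} : Set ℤ) by simp)
    obtain ⟨v, hv, hxv⟩ := hc (show g (f x) ∈ ({g (f x), x} : Set ℤ) by simp)
    have hx' : x = k + y + u + (-v) := by linarith
    rw [hx']
    exact add_mem_add (add_mem_add (add_mem_add rfl hy) hu) (neg_mem_neg.2 hv)
  choose K hK hCK using hC
  obtain ⟨L, hL, hLK⟩ := not_hemicompact Q hQ hQp K hK
  -- `L ∪ {0}` is bounded, so `L` lies in some `C n`
  have h2 : profinite Q {insert 0 L} := by
    refine ⟨insert 0 L, hL.insert 0, ?_⟩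
    rintro A rfl
    exact ⟨0, fun x hx => ⟨x, hx, by simp⟩⟩
  obtain ⟨n, hn⟩ := hf _ h2
  apply hLK n
  intro x hx
  apply hCK n
  exact hn (f '' insert 0 L) ⟨_, rfl, rfl⟩ (f x) ⟨x, mem_insert_of_mem _ hx, rfl⟩ (f 0)
    ⟨0, mem_insert _ _, rfl⟩

end Pool.Agent.Results.MP_59b615_al.NotWordMetric
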